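import Pool.Agent.TH13.HHHNum

/-!
# A rectangular component in the kernel of the Hermite-Hadamard-Howe map

The map `h_{7,4} : S^7(S^4 V) → S^4(S^7 V)` vanishes on the `S_{(7^4)} V`-isotypic component of
`S^7(S^4 V)`, and this component is not zero, for every complex vector space `V` of finite
dimension at least `4`.

Idea. A highest weight vector of weight `(d^n)` is semi-invariant of weight `det^d` under `GL_n`;
for odd `d` the transposition of two basis vectors changes its sign, while it preserves the
product `x_1 ⋯ x_n`; hence the invariant vanishes at all products of `n` linear forms, that is,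
`h_{d,n}` kills it. On the other hand quaternary quartics have an invariant of degree `7`, the
symmetrization of the product of the seven brackets given by the complements of the lines of the
Fano plane.
-/

set_option autoImplicit false

namespace Pool.Agent.Results.MP_96ff56_al.KilledComponent

open Pool.Agent.TH13.HHH

theorem result (V : Type) [AddCommGroup V] [Module ℂ V] (N : ℕ) (b : Module.Basis (Fin N) ℂ V)
    (hN : 4 ≤ N) :
    rectComponent b 7 4 ≤ SdSn V 7 4 ∧ rectComponent b 7 4 ≠ ⊥ ∧
      ∀ x ∈ rectComponent b 7 4, hhh V 7 4 x = 0 := by
  refine ⟨?_, ?_, fun x hx => hhh_rectComponent hN (by decide) (by norm_num) b hx⟩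
  · rw [rectComponent, Submodule.span_le]
    rintro x ⟨g, t, hS, -, rfl⟩ π τ
    have h1 : wr π τ (glAct g t) = glAct g (wr π τ t) :=
      (PiTensorProduct.map_reindex (fun _ => g.toLinearMap) _ t).symm
    rw [h1, hS π τ]
  · intro h0
    have h1 : tBrk hN b fano ∈ rectComponent b 7 4 := by
      refine Submodule.subset_span ⟨LinearEquiv.refl ℂ V, tBrk hN b fano, tBrk_mem hN b fano,
        tBrk_hw hN b fano, ?_⟩
      rw [glAct]
      change _ = PiTensorProduct.map (fun _ => LinearMap.id) (tBrk hN b fano)
      rw [PiTensorProduct.map_id]
      rfl
    rw [h0, Submodule.mem_bot] at h1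
    exact tBrk_ne_zero hN b fano pts fano_sum h1

end Pool.Agent.Results.MP_96ff56_al.KilledComponent
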